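import Pool.Agent.U398.RL.Fin1
import Pool.Agent.U261.RL.Theta2

set_option autoImplicit false

open Pool.Agent.Y813.Refl

namespace Pool.Agent.Results.MP_f1d0b6_nt.ReflectiveGenus

/-- **Question Q1 of MP_f1d0b6_nt, answered in the affirmative.** Let `L` be an even positive
definite lattice of rank 20 (with Gram matrix `G`) such that `M = 2U + L(-1)`, of signature
`(2, 22)`, is reflective: there is a nonconstant modular form, of some weight and with some
character of finite order, for the discriminant kernel of `M` (with respect to an arbitrary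
component of the domain), all of whose zeros lie on mirrors of reflective vectors. Then `L` lies
in the genus of `2E_8 + D_4`. -/
theorem result (G : Matrix (Fin 20) (Fin 20) ℤ) (hsymm : G.IsSymm)
    (heven : ∀ i, Even (G i i))
    (hpos : ∀ x : Fin 20 → ℝ, x ≠ 0 → 0 < form G x x)
    (Z₀ : Fin 4 ⊕ Fin 20 → ℂ) (hZ₀ : Z₀ ∈ quadric (gramM G))
    (hR : IsReflectiveLattice (gramM G) (connectedComponentIn (quadric (gramM G)) Z₀)) :
    SameGenus G gramEED :=
  Pool.Agent.U398.RL.main2 Pool.Agent.U261.RL.jobTheta2 ⟨hsymm, hpos⟩ heven hZ₀ hR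

end Pool.Agent.Results.MP_f1d0b6_nt.ReflectiveGenus
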